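import Pool.Agent.W323.BRCount

/-!
# Random colourings never minimise the number of monochromatic progressions of `[n]`

For every `k ≥ 3` and every `r ≥ 2` there are a constant `δ` strictly below the random rate
`1 / (2 (k-1) r^(k-1))` and `r`-colourings `χ_n` of `[n] = {1, ..., n}` with
`M_k(χ_n) = δ n² + O(n)` monochromatic `k`-term arithmetic progressions.

Idea.  Perturb the uniform random colouring: the colour of `x` is `0` with probability
`(1 + e φ(x)) / r`, `1` with probability `(1 - e φ(x)) / r`.  The second order term in `e` of the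
expected number of monochromatic progressions is `2 e² r^(-k) ∑ φ(x) φ(y)`, the sum over
all pairs of terms of all progressions.  The corresponding kernel is constant near the diagonal
but not globally (progressions are cut off at the ends of `[n]`), hence it is not positive
semidefinite; an explicit `φ`, a combination of the indicator functions of three short intervals,
makes the sum at most `- c n²`.  Derandomise, then interpolate between this colouring and the
constant one.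
-/

namespace Pool.Agent.Results.MP_6bff71_co.BeatRandom

open Finset Pool.Agent.W323.BR

/-- The `k`-term arithmetic progression `{a, a + d, ..., a + (k-1) d}` as a set of integers. -/
def apSet (k : ℕ) (a d : ℤ) : Finset ℤ := (Finset.range k).image (fun i : ℕ => a + (i : ℤ) * d)

/-- `M_k(χ)`: the number of `k`-term arithmetic progressions (sets `{a, ..., a + (k-1) d}`,
`a, d ≥ 1`) contained in `[n] = {1, ..., n}` on which the colouring `χ` is constant. -/
noncomputable def monoCount (k n : ℕ) {r : ℕ} (χ : ℤ → Fin r) : ℕ :=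
  Set.ncard {P : Finset ℤ | P ⊆ Finset.Icc (1 : ℤ) (n : ℤ) ∧
    (∃ a d : ℤ, 1 ≤ a ∧ 1 ≤ d ∧ P = apSet k a d) ∧ ∀ x ∈ P, ∀ y ∈ P, χ x = χ y}

lemma mem_apSet {k : ℕ} {a d x : ℤ} : x ∈ apSet k a d ↔ ∃ i < k, a + (i : ℤ) * d = x := by
  unfold apSet
  simp [Finset.mem_image]

lemma apSet_inj {k : ℕ} (hk : 2 ≤ k) {a d a' d' : ℤ} (hd : 1 ≤ d) (hd' : 1 ≤ d')
    (h : apSet k a d = apSet k a' d') : a = a' ∧ d = d' := by
  have hk' : (2 : ℤ) ≤ k := by exact_mod_cast hk
  have low : ∀ {a d a' d' : ℤ}, 1 ≤ d' → apSet k a d = apSet k a' d' → a' ≤ a := by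
    intro a d a' d' hd' h
    have h1 : a ∈ apSet k a' d' := by
      rw [← h, mem_apSet]; exact ⟨0, by omega, by simp⟩
    rw [mem_apSet] at h1
    obtain ⟨i, _, hi⟩ := h1
    have : 0 ≤ (i : ℤ) * d' := by positivity
    linarith
  have high : ∀ {a d a' d' : ℤ}, 1 ≤ d' → apSet k a d = apSet k a' d' →
      a + ((k : ℤ) - 1) * d ≤ a' + ((k : ℤ) - 1) * d' := by
    intro a d a' d' hd' h
    have h1 : a + ((k : ℤ) - 1) * d ∈ apSet k a' d' := by
      rw [← h, mem_apSet]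
      refine ⟨k - 1, by omega, ?_⟩
      push_cast [Nat.cast_sub (show 1 ≤ k by omega)]
      ring
    rw [mem_apSet] at h1
    obtain ⟨i, hik, hi⟩ := h1
    have : (i : ℤ) * d' ≤ ((k : ℤ) - 1) * d' := by
      refine mul_le_mul_of_nonneg_right ?_ (by linarith)
      have : (i : ℤ) + 1 ≤ k := by exact_mod_cast hik
      linarith
    linarith
  have e1 : a = a' := le_antisymm (low hd h.symm) (low hd' h)
  have e2 := le_antisymm (high hd' h) (high hd h.symm)
  refine ⟨e1, ?_⟩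
  rw [e1] at e2
  have e3 : ((k : ℤ) - 1) * d = ((k : ℤ) - 1) * d' := by linarith
  exact mul_left_cancel₀ (by linarith) e3

lemma monoCount_eq (k n : ℕ) (hk : 2 ≤ k) {r : ℕ} (χ : ℤ → Fin r) :
    monoCount k n χ = mono k n χ := by
  have hk' : (2 : ℤ) ≤ k := by exact_mod_cast hk
  unfold monoCount
  have himg : {P : Finset ℤ | P ⊆ Finset.Icc (1 : ℤ) (n : ℤ) ∧
      (∃ a d : ℤ, 1 ≤ a ∧ 1 ≤ d ∧ P = apSet k a d) ∧ ∀ x ∈ P, ∀ y ∈ P, χ x = χ y} =
      (fun p : ℤ × ℤ => apSet k p.1 p.2) ''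
        (((T k n).filter (fun p : ℤ × ℤ => ∀ i < k, χ (p.1 + i * p.2) = χ p.1) : Finset (ℤ × ℤ)) :
          Set (ℤ × ℤ)) := by
    ext P
    simp only [Set.mem_image, mem_coe, mem_filter, Set.mem_setOf_eq]
    constructor
    · rintro ⟨hsub, ⟨a, d, ha, hd, rfl⟩, hmono⟩
      refine ⟨(a, d), ⟨?_, ?_⟩, rfl⟩
      · rw [mem_T hk]
        refine ⟨ha, hd, ?_⟩
        have h1 : a + ((k : ℤ) - 1) * d ∈ apSet k a d := by
          rw [mem_apSet]
          refine ⟨k - 1, by omega, ?_⟩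
          push_cast [Nat.cast_sub (show 1 ≤ k by omega)]
          ring
        have := hsub h1
        rw [mem_Icc] at this
        exact this.2
      · intro i hi
        refine hmono _ ?_ _ ?_
        · rw [mem_apSet]; exact ⟨i, hi, rfl⟩
        · rw [mem_apSet]; exact ⟨0, by omega, by simp⟩
    · rintro ⟨p, ⟨hpT, hp⟩, rfl⟩
      have hpT' := (mem_T hk).mp hpT
      refine ⟨?_, ⟨p.1, p.2, hpT'.1, hpT'.2.1, rfl⟩, ?_⟩
      · intro x hx
        rw [mem_apSet] at hx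
        obtain ⟨i, hi, rfl⟩ := hx
        rw [mem_Icc]
        exact term_mem hk hpT hi
      · intro x hx y hy
        rw [mem_apSet] at hx hy
        obtain ⟨i, hi, rfl⟩ := hx
        obtain ⟨j, hj, rfl⟩ := hy
        rw [hp i hi, hp j hj]
  rw [himg, Set.ncard_image_of_injOn, Set.ncard_coe_finset]
  · rfl
  · intro p hp q hq hpq
    rw [mem_coe, mem_filter, mem_T hk] at hp hq
    obtain ⟨e1, e2⟩ := apSet_inj hk hp.1.2.1 hq.1.2.1 hpq
    exact Prod.ext e1 e2

/-- the sign of a colour -/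
noncomputable def sg {r : ℕ} (c : Fin r) : ℝ := if c.val = 0 then 1 else if c.val = 1 then -1 else 0

/-- perturbed uniform distribution -/
noncomputable def PP (r : ℕ) (e : ℝ) (f : ℤ → ℝ) (x : ℤ) (c : Fin r) : ℝ :=
  (1 / (r : ℝ)) * (1 + e * (sg c * f x))

lemma sum_fin_split {r : ℕ} (hr : 2 ≤ r) (g : ℝ → ℝ) :
    ∑ c : Fin r, g (sg c) = g 1 + g (-1) + ((r : ℝ) - 2) * g 0 := by
  obtain ⟨m, rfl⟩ : ∃ m, r = m + 2 := ⟨r - 2, by omega⟩
  rw [Fin.sum_univ_succ, Fin.sum_univ_succ]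
  have h0 : sg (0 : Fin (m + 2)) = 1 := by simp [sg]
  have h1 : sg (Fin.succ (0 : Fin (m + 1))) = -1 := by simp [sg]
  have h2 : ∀ i : Fin m, sg (Fin.succ (Fin.succ i)) = 0 := by intro i; simp [sg]
  rw [h0, h1]
  simp_rw [h2]
  rw [Finset.sum_const, Finset.card_univ, Fintype.card_fin]
  push_cast
  rw [nsmul_eq_mul]
  ring

lemma sum_PP {r : ℕ} (hr : 2 ≤ r) (e : ℝ) (f : ℤ → ℝ) (x : ℤ) : ∑ c, PP r e f x c = 1 := by
  unfold PP
  have hr0 : (r : ℝ) ≠ 0 := by positivity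
  rw [← Finset.mul_sum, sum_fin_split hr (fun t => 1 + e * (t * f x))]
  field_simp
  ring

lemma PP_nonneg {r : ℕ} (e : ℝ) (he0 : 0 ≤ e) (he : e ≤ 1) (f : ℤ → ℝ) (hf : ∀ x, |f x| ≤ 1)
    (x : ℤ) (c : Fin r) : 0 ≤ PP r e f x c := by
  unfold PP
  refine mul_nonneg (by positivity) ?_
  have h1 : |sg c * f x| ≤ 1 := by
    rw [abs_mul]
    have : |sg c| ≤ 1 := by
      unfold sg; split_ifs <;> simp
    calc |sg c| * |f x| ≤ 1 * 1 := mul_le_mul this (hf x) (abs_nonneg _) (by norm_num)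
      _ = 1 := by norm_num
  have h2 := (abs_le.mp h1).1
  nlinarith

lemma FF_PP {k r n : ℕ} (hr : 2 ≤ r) (e : ℝ) (he0 : 0 ≤ e) (he : e ≤ 1) (f : ℤ → ℝ)
    (hf : ∀ x, |f x| ≤ 1) :
    FF k n (PP r e f) ≤ (1 / (r : ℝ)) ^ k *
      (((r : ℝ) + 2 * CC k * e ^ 3) * ((T k n).card : ℝ) + 2 * e ^ 2 * QQ k n f) := by
  unfold FF QQ
  have h1 : ∀ p ∈ T k n, ∑ c : Fin r, ∏ i ∈ range k, PP r e f (p.1 + i * p.2) c ≤
      (1 / (r : ℝ)) ^ k * (((r : ℝ) + 2 * CC k * e ^ 3) + 2 * e ^ 2 *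
        ∑ j ∈ range k, ∑ i ∈ range j, f (p.1 + i * p.2) * f (p.1 + j * p.2)) := by
    intro p _
    unfold PP
    simp_rw [Finset.prod_mul_distrib, Finset.prod_const, Finset.card_range]
    rw [← Finset.mul_sum]
    refine mul_le_mul_of_nonneg_left ?_ (by positivity)
    rw [sum_fin_split hr (fun t => ∏ i ∈ range k, (1 + e * (t * f (p.1 + i * p.2))))]
    have h2 := taylor_sym (fun i => f (p.1 + i * p.2)) (fun i => hf _) e he0 he k
    have h3 : ∏ i ∈ range k, (1 + e * (1 * f (p.1 + i * p.2))) =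
        ∏ i ∈ range k, (1 + e * f (p.1 + i * p.2)) :=
      Finset.prod_congr rfl fun i _ => by ring
    have h4 : ∏ i ∈ range k, (1 + e * (-1 * f (p.1 + i * p.2))) =
        ∏ i ∈ range k, (1 - e * f (p.1 + i * p.2)) :=
      Finset.prod_congr rfl fun i _ => by ring
    have h5 : ∏ i ∈ range k, (1 + e * (0 * f (p.1 + i * p.2))) = 1 := by simp
    rw [h3, h4, h5]
    unfold E2 at h2
    linarith
  refine (Finset.sum_le_sum h1).trans (le_of_eq ?_)
  rw [← Finset.mul_sum, Finset.sum_add_distrib, Finset.sum_const, ← Finset.mul_sum, nsmul_eq_mul]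
  ring

lemma phi_abs {k : ℕ} {n s D u : ℤ} (G : Geo k n s D u) (x : ℤ) : |phi k s D u x| ≤ 1 := by
  have h1 := G.hD
  have h2 := G.hu
  have hk : (3 : ℝ) ≤ k := by exact_mod_cast G.hk
  have hb0 : (0 : ℝ) ≤ 1 / (k : ℝ) ^ 2 := by positivity
  have hb1 : 1 / (k : ℝ) ^ 2 ≤ 1 := by
    rw [div_le_one (by positivity)]; nlinarith
  unfold phi ind I1 I0 J0
  simp only [mem_Ioc]
  rw [abs_le]
  split_ifs with ha hb hc hc hb hc hc <;>
    first
    | (exfalso; linarith [ha.1, ha.2, hb.1, hb.2])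
    | (exfalso; linarith [ha.1, ha.2, hc.1, hc.2])
    | (exfalso; linarith [hb.1, hb.2, hc.1, hc.2])
    | (constructor <;> linarith)

/-- for large `n` there is a colouring with fewer than `(random rate - η) n²` monochromatic
progressions -/
lemma exists_good (k r : ℕ) (hk : 3 ≤ k) (hr : 2 ≤ r) :
    ∃ η : ℝ, 0 < η ∧ η ≤ 1 ∧ ∃ n0 : ℕ, 8 * k ≤ n0 ∧ ∀ n : ℕ, n0 ≤ n → ∃ χ : ℤ → Fin r,
      (mono k n χ : ℝ) ≤ (1 / (2 * ((k : ℝ) - 1) * (r : ℝ) ^ (k - 1)) - η) * (n : ℝ) ^ 2 := by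
  have hkR : (3 : ℝ) ≤ k := by exact_mod_cast hk
  have hrR : (2 : ℝ) ≤ r := by exact_mod_cast hr
  set c1 : ℝ := 1 / (1152 * (k : ℝ) ^ 4) with hc1
  have hc1pos : 0 < c1 := by positivity
  have hc1le : c1 ≤ 1 := by
    rw [hc1, div_le_one (by positivity)]
    have : (1 : ℝ) ≤ (k : ℝ) ^ 4 := one_le_pow₀ (by linarith)
    linarith
  have hCC := CC_nonneg k
  set e : ℝ := c1 / (2 * (CC k + 1)) with he
  have he0 : 0 < e := by positivity
  have he1 : e ≤ 1 := by
    rw [he, div_le_one (by positivity)]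
    linarith
  have heC : 2 * CC k * e ≤ c1 := by
    rw [he]
    rw [mul_div_assoc', div_le_iff₀ (by positivity)]
    nlinarith
  have hrk : (0 : ℝ) < (1 / (r : ℝ)) ^ k := by positivity
  have hrk1 : (1 / (r : ℝ)) ^ k ≤ 1 := by
    refine pow_le_one₀ (by positivity) ?_
    rw [div_le_one (by positivity)]; linarith
  refine ⟨(1 / (r : ℝ)) ^ k * (e ^ 2 * c1), by positivity, ?_, 24 * k * ((k - 1).factorial + 1), ?_, ?_⟩
  · have h1 : e ^ 2 * c1 ≤ 1 := by
      have : e ^ 2 ≤ 1 := pow_le_one₀ he0.le he1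
      nlinarith
    calc (1 / (r : ℝ)) ^ k * (e ^ 2 * c1) ≤ 1 * 1 :=
          mul_le_mul hrk1 h1 (by positivity) (by norm_num)
      _ = 1 := by norm_num
  · nlinarith [Nat.factorial_pos (k - 1)]
  · intro n hn
    set F : ℕ := (k - 1).factorial with hF
    have hFpos : 0 < F := Nat.factorial_pos _
    set D : ℕ := n / (2 * (k - 1)) with hD
    set l : ℕ := D / (6 * F) with hl
    set u : ℕ := F * l with hu
    -- bounds
    have hD1 : 2 * (k - 1) * D ≤ n := Nat.mul_div_le _ _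
    have hD2 : n < 2 * (k - 1) * (D + 1) := by
      have := Nat.lt_mul_div_succ n (show 0 < 2 * (k - 1) by omega)
      exact this
    have hl1 : 6 * F * l ≤ D := Nat.mul_div_le _ _
    have hl2 : D < 6 * F * (l + 1) := Nat.lt_mul_div_succ D (by positivity)
    have hD1R : 2 * ((k : ℝ) - 1) * D ≤ n := by
      have : ((2 * (k - 1) * D : ℕ) : ℝ) ≤ n := by exact_mod_cast hD1
      push_cast [Nat.cast_sub (show 1 ≤ k by omega)] at this
      exact this
    have hD2R : (n : ℝ) < 2 * ((k : ℝ) - 1) * (D + 1) := by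
      have : (n : ℝ) < ((2 * (k - 1) * (D + 1) : ℕ) : ℝ) := by exact_mod_cast hD2
      push_cast [Nat.cast_sub (show 1 ≤ k by omega)] at this
      exact this
    have hl1R : 6 * (u : ℝ) ≤ D := by
      have : ((6 * F * l : ℕ) : ℝ) ≤ D := by exact_mod_cast hl1
      rw [hu]; push_cast at this ⊢; linarith
    have hl2R : (D : ℝ) < 6 * u + 6 * F := by
      have : (D : ℝ) < ((6 * F * (l + 1) : ℕ) : ℝ) := by exact_mod_cast hl2
      rw [hu]; push_cast at this ⊢; linarith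
    have hnR : 24 * (k : ℝ) * ((F : ℝ) + 1) ≤ n := by
      have : ((24 * k * (F + 1) : ℕ) : ℝ) ≤ n := by exact_mod_cast hn
      push_cast at this
      exact this
    have huR : (n : ℝ) ≤ 24 * k * u := by
      -- n < 2 (k-1) (D+1) ≤ 2k (6u + 6F + 1)
      have h1 : (n : ℝ) < 2 * ((k : ℝ) - 1) * (6 * u + 6 * F + 1) := by
        refine hD2R.trans_le ?_
        refine mul_le_mul_of_nonneg_left (by linarith) (by linarith)
      have h2 : 2 * ((k : ℝ) - 1) * (6 * u + 6 * F + 1) ≤ 2 * (k : ℝ) * (6 * u + 6 * F + 1) := by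
        have : (0 : ℝ) ≤ 6 * (u : ℝ) + 6 * F + 1 := by positivity
        nlinarith
      nlinarith
    have hu1 : 1 ≤ u := by
      by_contra hcon
      have h0 : u = 0 := by omega
      have h00 : (u : ℝ) = 0 := by rw [h0]; simp
      rw [h00] at huR
      have hFR : (0 : ℝ) ≤ F := by positivity
      have : (0 : ℝ) < 24 * (k : ℝ) * ((F : ℝ) + 1) := by positivity
      linarith
    have hkZ : (3 : ℤ) ≤ k := by exact_mod_cast hk
    have hD1Z : 2 * ((k : ℤ) - 1) * D ≤ n := by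
      have : ((2 * (k - 1) * D : ℕ) : ℤ) ≤ n := by exact_mod_cast hD1
      push_cast [Nat.cast_sub (show 1 ≤ k by omega)] at this
      exact this
    have G : Geo k (n : ℤ) ((n : ℤ) - ((k : ℤ) - 1) * D) (D : ℤ) (u : ℤ) := by
      refine ⟨hk, by exact_mod_cast hu1, ?_, by linarith, by ring, ?_⟩
      · have : (6 * (u : ℝ)) ≤ D := hl1R
        exact_mod_cast this
      · intro g hg1 hg2
        rw [Int.natCast_dvd_natCast, hu]
        exact Dvd.dvd.mul_right (Nat.dvd_factorial (by omega) (by omega)) _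
    set f : ℤ → ℝ := phi k ((n : ℤ) - ((k : ℤ) - 1) * D) (D : ℤ) (u : ℤ) with hf
    have hfabs : ∀ x, |f x| ≤ 1 := fun x => phi_abs G x
    obtain ⟨χ, hχ⟩ := derand' k (by omega) n (PP r e f) (sum_PP hr e f)
      (fun x c => PP_nonneg e he0.le he1 f hfabs x c)
    refine ⟨χ, hχ.trans ?_⟩
    refine (FF_PP hr e he0.le he1 f hfabs).trans ?_
    have hQ : QQ k n f ≤ - c1 * (n : ℝ) ^ 2 := by
      refine (QQ_le G).trans ?_
      have h1 : (n : ℝ) ^ 2 ≤ (24 * k * u) ^ 2 := pow_le_pow_left₀ (by positivity) huR 2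
      rw [hc1]
      rw [neg_div, neg_mul, neg_le_neg_iff, div_mul_eq_mul_div, one_mul, div_le_div_iff₀ (by positivity) (by positivity)]
      push_cast
      have h2 : (n : ℝ) ^ 2 * (2 * (k : ℝ) ^ 2) ≤ (24 * k * u) ^ 2 * (2 * (k : ℝ) ^ 2) :=
        mul_le_mul_of_nonneg_right h1 (by positivity)
      refine h2.trans (le_of_eq ?_)
      ring
    have hT := card_T_le k n (by omega)
    set t : ℝ := ((T k n).card : ℝ) with ht
    have ht0 : 0 ≤ t := by positivity
    have hq : (0 : ℝ) < (k : ℝ) - 1 := by linarith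
    have htn : t ≤ (n : ℝ) ^ 2 := by nlinarith
    have hmain : (2 * CC k * e ^ 3) * t + 2 * e ^ 2 * QQ k n f ≤ - (e ^ 2 * c1) * (n : ℝ) ^ 2 := by
      have h1 : (2 * CC k * e ^ 3) * t ≤ (c1 * e ^ 2) * (n : ℝ) ^ 2 := by
        have h3 : 2 * CC k * e ^ 3 = (2 * CC k * e) * e ^ 2 := by ring
        rw [h3]
        refine mul_le_mul (mul_le_mul_of_nonneg_right heC (by positivity)) htn ht0 (by positivity)
      have h2 : 2 * e ^ 2 * QQ k n f ≤ 2 * e ^ 2 * (- c1 * (n : ℝ) ^ 2) :=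
        mul_le_mul_of_nonneg_left hQ (by positivity)
      linarith
    have hrate : (1 / (r : ℝ)) ^ k * ((r : ℝ) * t) ≤
        1 / (2 * ((k : ℝ) - 1) * (r : ℝ) ^ (k - 1)) * (n : ℝ) ^ 2 := by
      have h1 : (r : ℝ) ^ k = r * (r : ℝ) ^ (k - 1) := by
        rw [← pow_succ']; congr 1; omega
      have h2 : (1 / (r : ℝ)) ^ k * ((r : ℝ) * t) = t / (r : ℝ) ^ (k - 1) := by
        rw [one_div, inv_pow, h1]
        field_simp
      rw [h2, div_mul_eq_mul_div, one_mul, div_le_div_iff₀ (by positivity) (by positivity)]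
      have h3 : (0 : ℝ) < (r : ℝ) ^ (k - 1) := by positivity
      nlinarith
    calc (1 / (r : ℝ)) ^ k * (((r : ℝ) + 2 * CC k * e ^ 3) * t + 2 * e ^ 2 * QQ k n f)
        = (1 / (r : ℝ)) ^ k * ((r : ℝ) * t) + (1 / (r : ℝ)) ^ k *
            ((2 * CC k * e ^ 3) * t + 2 * e ^ 2 * QQ k n f) := by ring
      _ ≤ 1 / (2 * ((k : ℝ) - 1) * (r : ℝ) ^ (k - 1)) * (n : ℝ) ^ 2 +
          (1 / (r : ℝ)) ^ k * (- (e ^ 2 * c1) * (n : ℝ) ^ 2) :=
          add_le_add hrate (mul_le_mul_of_nonneg_left hmain hrk.le)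
      _ = _ := by ring

/-- **Random colourings are beaten for all `k ≥ 3`, `r ≥ 2`.**  There are a constant `δ` strictly
smaller than the random rate `1 / (2 (k-1) r^(k-1))`, and for each `n` an `r`-colouring `χ n` of
`[n]`, such that the number of monochromatic `k`-term progressions is `δ n² + O(n)`. -/
theorem result (k r : ℕ) (hk : 3 ≤ k) (hr : 2 ≤ r) :
    ∃ δ : ℝ, δ < 1 / (2 * ((k : ℝ) - 1) * (r : ℝ) ^ (k - 1)) ∧
      ∃ (χ : ℕ → ℤ → Fin r) (C : ℝ), ∀ n : ℕ, 1 ≤ n →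
        |(monoCount k n (χ n) : ℝ) - δ * (n : ℝ) ^ 2| ≤ C * n := by
  obtain ⟨η, hη0, hη1, n0, hn0, hgood⟩ := exists_good k r hk hr
  have hkR : (3 : ℝ) ≤ k := by exact_mod_cast hk
  have hrR : (2 : ℝ) ≤ r := by exact_mod_cast hr
  set ρ : ℝ := 1 / (2 * ((k : ℝ) - 1) * (r : ℝ) ^ (k - 1)) with hρ
  have hρ0 : 0 < ρ := by
    rw [hρ]
    have : (0 : ℝ) < (k : ℝ) - 1 := by linarith
    positivity
  have hr4 : (4 : ℝ) ≤ (r : ℝ) ^ (k - 1) := by
    calc (4 : ℝ) = 2 ^ 2 := by norm_num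
      _ ≤ (r : ℝ) ^ 2 := pow_le_pow_left₀ (by norm_num) hrR 2
      _ ≤ (r : ℝ) ^ (k - 1) := pow_le_pow_right₀ (by linarith) (by omega)
  have hρ1 : ρ * (8 * ((k : ℝ) - 1)) ≤ 1 := by
    rw [hρ, div_mul_eq_mul_div, one_mul, div_le_one (by
      have : (0 : ℝ) < (k : ℝ) - 1 := by linarith
      positivity)]
    nlinarith
  have hρle : ρ ≤ 1 := by nlinarith
  have hex : ∀ n : ℕ, ∃ χ : ℤ → Fin r, 1 ≤ n →
      |(monoCount k n χ : ℝ) - (ρ - η) * (n : ℝ) ^ 2| ≤ ((k : ℝ) + 2 * n0) * n := by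
    intro n
    by_cases hn : n0 ≤ n
    · obtain ⟨χ1, h1⟩ := hgood n hn
      have hkn : k ≤ n := by omega
      have h0 : (ρ - η) * (n : ℝ) ^ 2 ≤ mono k n (fun _ : ℤ => (⟨0, by omega⟩ : Fin r)) := by
        rw [mono_const]
        have hT := card_T_ge k n (by omega) hkn
        have hnR : 8 * (k : ℝ) ≤ n := by exact_mod_cast hn0.trans hn
        set t : ℝ := ((T k n).card : ℝ) with ht
        have hq : (0 : ℝ) < (k : ℝ) - 1 := by linarith
        -- (n - q)^2 ≤ 2 q t,  ρ 8 q ≤ 1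
        have h2 : ρ * (n : ℝ) ^ 2 * (8 * ((k : ℝ) - 1)) ≤ (n : ℝ) ^ 2 := by
          have : (0 : ℝ) ≤ (n : ℝ) ^ 2 := by positivity
          nlinarith
        have h3 : (n : ℝ) ^ 2 ≤ 4 * ((n : ℝ) - ((k : ℝ) - 1)) ^ 2 := by nlinarith
        have h4 : ρ * (n : ℝ) ^ 2 * (8 * ((k : ℝ) - 1)) ≤ t * (8 * ((k : ℝ) - 1)) := by
          calc _ ≤ (n : ℝ) ^ 2 := h2
            _ ≤ 4 * ((n : ℝ) - ((k : ℝ) - 1)) ^ 2 := h3
            _ ≤ 4 * (2 * ((k : ℝ) - 1) * t) := by linarith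
            _ = _ := by ring
        have h5 : ρ * (n : ℝ) ^ 2 ≤ t := le_of_mul_le_mul_right h4 (by positivity)
        have h6 : 0 ≤ η * (n : ℝ) ^ 2 := by positivity
        linarith
      obtain ⟨χ, hχ⟩ := interpolate k n (by omega) χ1 _ _ h1 h0
      refine ⟨χ, fun _ => ?_⟩
      rw [monoCount_eq k n (by omega)]
      refine hχ.trans ?_
      have : (0 : ℝ) ≤ 2 * n0 * n := by positivity
      linarith
    · push Not at hn
      refine ⟨fun _ => ⟨0, by omega⟩, fun hn1 => ?_⟩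
      rw [monoCount_eq k n (by omega), mono_const]
      have hT := card_T_le k n (by omega)
      set t : ℝ := ((T k n).card : ℝ) with ht
      have ht0 : 0 ≤ t := by positivity
      have hnn : (n : ℝ) ^ 2 ≤ n0 * n := by
        have : (n : ℝ) ≤ n0 := by exact_mod_cast hn.le
        nlinarith [Nat.cast_nonneg (α := ℝ) n]
      have htn : t ≤ (n : ℝ) ^ 2 := by nlinarith
      have hn2 : (0 : ℝ) ≤ (n : ℝ) ^ 2 := by positivity
      have h7 : |ρ - η| ≤ 1 := by rw [abs_le]; constructor <;> linarith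
      have h8 : |(ρ - η) * (n : ℝ) ^ 2| ≤ (n : ℝ) ^ 2 := by
        rw [abs_mul, abs_of_nonneg hn2]
        nlinarith
      have h9 := abs_le.mp h8
      have h10 : (0 : ℝ) ≤ k * n := by positivity
      rw [abs_le]
      constructor <;> nlinarith [h9.1, h9.2]
  choose χ hχ using hex
  exact ⟨ρ - η, by linarith, χ, (k : ℝ) + 2 * n0, fun n hn => hχ n hn⟩

end Pool.Agent.Results.MP_6bff71_co.BeatRandom
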